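import Mathlib

/-!
# Cross-intersecting pairs of projective subspaces

After enlarging each `V i` to a complement of `U i`, the members with `dim U i = a` give linearly
independent alternating forms of degree `a` on `F ^ (n + 1)`, so there are at most
`(n + 1).choose a` of them; sum over `1 ≤ a ≤ n`.
-/

set_option autoImplicit false

namespace Pool.Agent.Results.MP_59f694_co.ProjectiveBollobas

open Module

variable {F : Type*} [Field F] {n : ℕ}

/-- Indexing of a basis of `F ^ (n + 1)` by `Fin a ⊕ Fin b`. -/
noncomputable def bs {a b : ℕ} (h : a + b = n + 1) : Basis (Fin a ⊕ Fin b) F (Fin (n + 1) → F) :=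
  (Pi.basisFun F (Fin (n + 1))).reindex (finSumFinEquiv.trans (finCongr h)).symm

theorem update_add_aux {ι κ M : Type*} [AddCommGroup M] [Module F M] [DecidableEq ι]
    [DecidableEq (ι ⊕ κ)] (D : M [⋀^(ι ⊕ κ)]→ₗ[F] F) (x : ι → M) (B : κ → M) (i : ι) (v w : M) :
    D (Sum.elim (Function.update x i (v + w)) B) =
      D (Sum.elim (Function.update x i v) B) + D (Sum.elim (Function.update x i w) B) := by
  rw [← Sum.update_elim_inl, ← Sum.update_elim_inl, ← Sum.update_elim_inl]
  exact D.map_update_add (Sum.elim x B) (Sum.inl i) v w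

theorem update_smul_aux {ι κ M : Type*} [AddCommGroup M] [Module F M] [DecidableEq ι]
    [DecidableEq (ι ⊕ κ)] (D : M [⋀^(ι ⊕ κ)]→ₗ[F] F) (x : ι → M) (B : κ → M) (i : ι) (c : F)
    (v : M) :
    D (Sum.elim (Function.update x i (c • v)) B) =
      c • D (Sum.elim (Function.update x i v) B) := by
  rw [← Sum.update_elim_inl, ← Sum.update_elim_inl]
  exact D.map_update_smul (Sum.elim x B) (Sum.inl i) c v

/-- The alternating form `x ↦ det [x | B]`. -/
noncomputable def form {a b : ℕ} (h : a + b = n + 1) (B : Fin b → (Fin (n + 1) → F)) :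
    (Fin (n + 1) → F) [⋀^Fin a]→ₗ[F] F where
  toFun x := (bs h).det (Sum.elim x B)
  map_update_add' := by
    intro inst x i v w
    have hinst : inst = instDecidableEqFin a := Subsingleton.elim _ _
    subst hinst
    exact update_add_aux ((bs (F := F) h).det) x B i v w
  map_update_smul' := by
    intro inst x i c v
    have hinst : inst = instDecidableEqFin a := Subsingleton.elim _ _
    subst hinst
    exact update_smul_aux ((bs (F := F) h).det) x B i c v
  map_eq_zero_of_eq' := by
    intro x i j hx hij
    exact ((bs (F := F) h).det).map_eq_zero_of_eq (Sum.elim x B) (i := Sum.inl i) (j := Sum.inl j) hx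
      (fun h => hij (Sum.inl_injective h))

theorem form_apply {a b : ℕ} (h : a + b = n + 1) (B : Fin b → (Fin (n + 1) → F))
    (x : Fin a → (Fin (n + 1) → F)) : form h B x = (bs h).det (Sum.elim x B) := rfl

/-- The determinant detects nontrivial intersections. -/
theorem form_ne_zero_iff {a b : ℕ} (h : a + b = n + 1) (U V : Submodule F (Fin (n + 1) → F))
    (x : Basis (Fin a) F U) (y : Basis (Fin b) F V) :
    form h (fun j => (y j : Fin (n + 1) → F)) (fun i => (x i : Fin (n + 1) → F)) ≠ 0 ↔
      U ⊓ V = ⊥ := by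
  have hspanU : Submodule.span F (Set.range fun i => (x i : Fin (n + 1) → F)) = U := by
    have : (Set.range fun i => (x i : Fin (n + 1) → F)) = U.subtype '' Set.range x := by
      rw [← Set.range_comp]; rfl
    rw [this, Submodule.span_image, x.span_eq, Submodule.map_top, Submodule.range_subtype]
  have hspanV : Submodule.span F (Set.range fun i => (y i : Fin (n + 1) → F)) = V := by
    have : (Set.range fun i => (y i : Fin (n + 1) → F)) = V.subtype '' Set.range y := by
      rw [← Set.range_comp]; rfl
    rw [this, Submodule.span_image, y.span_eq, Submodule.map_top, Submodule.range_subtype]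
  have hli : LinearIndependent F (Sum.elim (fun i => (x i : Fin (n + 1) → F))
      (fun j => (y j : Fin (n + 1) → F))) ↔ U ⊓ V = ⊥ := by
    rw [linearIndependent_sum, Sum.elim_comp_inl, Sum.elim_comp_inr, hspanU, hspanV,
      disjoint_iff]
    have h1 : LinearIndependent F (fun i => (x i : Fin (n + 1) → F)) :=
      x.linearIndependent.map' U.subtype (Submodule.ker_subtype U)
    have h2 : LinearIndependent F (fun i => (y i : Fin (n + 1) → F)) :=
      y.linearIndependent.map' V.subtype (Submodule.ker_subtype V)
    tauto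
  rw [← hli, form_apply]
  constructor
  · intro h1
    by_contra h2
    exact h1 (((bs (F := F) h).det).map_linearDependent _ h2)
  · intro h1
    have hcard : Fintype.card (Fin a ⊕ Fin b) = finrank F (Fin (n + 1) → F) := by
      simp [h]
    have hspan := h1.span_eq_top_of_card_eq_finrank' hcard
    exact ((Basis.is_basis_iff_det (bs h)).1 ⟨h1, hspan⟩).ne_zero

/-- Triangular families are linearly independent. -/
theorem triangular {ι M : Type*} [Fintype ι] [LinearOrder ι] [AddCommGroup M] [Module F M]
    (f : ι → M) (L : ι → M →ₗ[F] F) (h1 : ∀ i, L i (f i) ≠ 0) (h2 : ∀ i j, i < j → L i (f j) = 0) :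
    LinearIndependent F f := by
  rw [Fintype.linearIndependent_iff]
  intro g hg i
  induction i using WellFoundedLT.induction with
  | ind i ih =>
    have h3 : L i (∑ j, g j • f j) = 0 := by rw [hg, map_zero]
    rw [map_sum, Finset.sum_eq_single i] at h3
    · rw [map_smul, smul_eq_mul] at h3
      exact (mul_eq_zero.1 h3).resolve_right (h1 i)
    · intro j _ hj
      rcases lt_or_gt_of_ne hj with h | h
      · rw [ih j h, zero_smul, map_zero]
      · rw [map_smul, h2 i j h, smul_zero]
    · intro h
      exact absurd (Finset.mem_univ i) h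

theorem finite_alternating (a : ℕ) :
    Module.Finite F ((Fin (n + 1) → F) [⋀^Fin a]→ₗ[F] F) :=
  Module.Finite.equiv (exteriorPower.alternatingMapLinearEquiv (R := F) (n := a)
    (M := Fin (n + 1) → F) (N := F)).symm

theorem finrank_alternating (a : ℕ) :
    finrank F ((Fin (n + 1) → F) [⋀^Fin a]→ₗ[F] F) = (n + 1).choose a := by
  rw [LinearEquiv.finrank_eq (exteriorPower.alternatingMapLinearEquiv (R := F) (n := a)
    (M := Fin (n + 1) → F) (N := F))]
  change finrank F (Dual F _) = _
  rw [Subspace.dual_finrank_eq, exteriorPower.finrank_eq]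
  simp

/-- The bound for one dimension. -/
theorem card_le_choose {ι : Type*} [Fintype ι] [LinearOrder ι] (a : ℕ)
    (U V : ι → Submodule F (Fin (n + 1) → F)) (hU : ∀ i, finrank F (U i) = a)
    (hUV : ∀ i, IsCompl (U i) (V i)) (hc : ∀ i j, i < j → U i ⊓ V j ≠ ⊥) :
    Fintype.card ι ≤ (n + 1).choose a := by
  rcases isEmpty_or_nonempty ι with hι | ⟨⟨i₀⟩⟩
  · simp
  have hdim : ∀ i, a + finrank F (V i) = n + 1 := by
    intro i
    have := Submodule.finrank_add_eq_of_isCompl (hUV i)
    rw [hU i] at this
    simpa using this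
  set b := n + 1 - a with hb
  have hV : ∀ i, finrank F (V i) = b := fun i => by have := hdim i; omega
  have hab : a + b = n + 1 := by have := hdim i₀; omega
  let x : ∀ i, Basis (Fin a) F (U i) := fun i => finBasisOfFinrankEq F (U i) (hU i)
  let y : ∀ i, Basis (Fin b) F (V i) := fun i => finBasisOfFinrankEq F (V i) (hV i)
  let φ : ι → (Fin (n + 1) → F) [⋀^Fin a]→ₗ[F] F := fun j =>
    form hab (fun l => (y j l : Fin (n + 1) → F))
  let L : ι → ((Fin (n + 1) → F) [⋀^Fin a]→ₗ[F] F) →ₗ[F] F := fun i =>
    { toFun := fun ψ => ψ (fun l => (x i l : Fin (n + 1) → F))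
      map_add' := fun _ _ => rfl
      map_smul' := fun _ _ => rfl }
  have hli : LinearIndependent F φ := by
    refine triangular φ L (fun i => ?_) (fun i j hij => ?_)
    · exact (form_ne_zero_iff hab (U i) (V i) (x i) (y i)).2 (hUV i).inf_eq_bot
    · by_contra h
      exact hc i j hij ((form_ne_zero_iff hab (U i) (V j) (x i) (y j)).1 h)
  have := finite_alternating (F := F) (n := n) a
  have := hli.fintype_card_le_finrank
  rwa [finrank_alternating] at this

/-- **At most `2 ^ (n + 1) - 2` cross-intersecting pairs of nonempty projective subspaces.** -/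
theorem result (n m : ℕ) (U V : Fin m → Submodule F (Fin (n + 1) → F))
    (hU : ∀ i, U i ≠ ⊥) (hV : ∀ i, V i ≠ ⊥) (hd : ∀ i, U i ⊓ V i = ⊥)
    (hc : ∀ i j, i < j → U i ⊓ V j ≠ ⊥) : m ≤ 2 ^ (n + 1) - 2 := by
  classical
  -- enlarge to complements
  have hcompl : ∀ i, ∃ W : Submodule F (Fin (n + 1) → F), V i ≤ W ∧ IsCompl (U i) W := by
    intro i
    obtain ⟨W, hW⟩ := Submodule.exists_isCompl (U i ⊔ V i)
    refine ⟨V i ⊔ W, le_sup_left, ?_, ?_⟩
    · exact Disjoint.disjoint_sup_right_of_disjoint_sup_left (disjoint_iff.2 (hd i)) hW.disjoint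
    · rw [codisjoint_iff, ← sup_assoc]
      exact hW.sup_eq_top
  choose W hVW hW using hcompl
  have hc' : ∀ i j, i < j → U i ⊓ W j ≠ ⊥ := by
    intro i j hij h
    apply hc i j hij
    rw [eq_bot_iff, ← h]
    exact inf_le_inf_left _ (hVW j)
  have hdim1 : ∀ i, finrank F (U i) ∈ Finset.Icc 1 n := by
    intro i
    have h1 : 0 < finrank F (U i) := by
      rw [Nat.pos_iff_ne_zero, Ne, Submodule.finrank_eq_zero]
      exact hU i
    have h2 : 0 < finrank F (W i) := by
      rw [Nat.pos_iff_ne_zero, Ne, Submodule.finrank_eq_zero]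
      intro h
      apply hV i
      rw [eq_bot_iff, ← h]
      exact hVW i
    have h3 := Submodule.finrank_add_eq_of_isCompl (hW i)
    rw [finrank_fin_fun] at h3
    rw [Finset.mem_Icc]
    omega
  have h1 : m = ∑ a ∈ Finset.Icc 1 n, (Finset.univ.filter fun i => finrank F (U i) = a).card := by
    rw [← Finset.card_eq_sum_card_fiberwise fun i _ => hdim1 i]
    simp
  have h2 : ∀ a ∈ Finset.Icc 1 n,
      (Finset.univ.filter fun i => finrank F (U i) = a).card ≤ (n + 1).choose a := by
    intro a _
    have := card_le_choose (ι := {i : Fin m // finrank F (U i) = a}) a (fun i => U i) (fun i => W i)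
      (fun i => i.2) (fun i => hW i) (fun i j hij => hc' i j hij)
    rwa [Fintype.card_subtype] at this
  have h3 : ∑ a ∈ Finset.Icc 1 n, (n + 1).choose a + 2 = 2 ^ (n + 1) := by
    rw [← Nat.sum_range_choose, Finset.sum_range_succ, Finset.sum_range_succ']
    have : ∑ a ∈ Finset.Icc 1 n, (n + 1).choose a = ∑ k ∈ Finset.range n, (n + 1).choose (k + 1) := by
      rw [Finset.range_eq_Ico, Finset.sum_Ico_add' (fun k => (n + 1).choose k) 0 n 1]
      rfl
    rw [this]
    simp
  have h4 := Finset.sum_le_sum h2
  omega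

end Pool.Agent.Results.MP_59f694_co.ProjectiveBollobas
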